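import Pool.Agent.MP_3ee8cb_gt.LV.Spec
import Pool.Agent.MP_3ee8cb_gt.CR.REX

/-! Asymptotic rays and Busemann functions: moving the base point. -/

namespace Pool.Agent.MP_3ee8cb_gt.DZM

open CR LV Set Filter Topology Real

variable {n : ℕ} {g h : Met n} {Φ : ℝ → UT g → UT g} {Ψ : ℝ → UT h → UT h}

/-- A limit of directions from `x` to far points of a geodesic. -/
theorem dirs (riem : Riem g) (hr : HrP g Φ) (p : UT g) (x : E n) :
    ∃ (q : ℕ → UT g) (T : ℕ → ℝ) (v : UT g), v.1.1 = x ∧ Tendsto q atTop (𝓝 v) ∧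
      Tendsto T atTop atTop ∧
      ∀ j, (q j).1.1 = x ∧ (Φ (dd g x (Φ (T j) p).1.1) (q j)).1.1 = (Φ (T j) p).1.1 := by
  have hk : p.1.2 ≠ 0 := fun e => by
    have := p.2
    rw [e] at this
    simp at this
  choose q hq using fun j : ℕ => hr x (Φ j p).1.1
  obtain ⟨v, hv, φ, hφ, hl⟩ := (ex_cpt g riem x _ hk).tendsto_subseq (x := q) fun j => (hq j).1
  exact ⟨q ∘ φ, fun j => (φ j : ℝ), v, hv, hl,
    tendsto_natCast_atTop_atTop.comp hφ.tendsto_atTop, fun j => hq (φ j)⟩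

/-- A ray along which the Busemann function of `v` decreases with unit speed is the ray of `v`. -/
theorem uniq (riem : Riem h) (lb : LbP h Ψ 1) {v w : UT h} (e : v.1.1 = w.1.1) {C : ℝ}
    (hC : ∀ s, 0 ≤ s → bus h Ψ v (Ψ s w).1.1 ≤ C - s) : v = w := by
  have h1 : 1 ≤ h v.1.1 v.1.2 w.1.2 := by
    by_contra hc
    have hc : 0 < 1 - h v.1.1 v.1.2 w.1.2 := sub_pos.2 (not_le.1 hc)
    obtain ⟨s, hs⟩ : ∃ s, s = exp C / (1 - h v.1.1 v.1.2 w.1.2) + 1 := ⟨_, rfl⟩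
    have hs0 : 0 ≤ s := by
      rw [hs]
      positivity
    have h2 := lb v w e s hs0
    simp only [one_mul] at h2
    have h3 : exp (bus h Ψ v (Ψ s w).1.1) ≤ exp C := exp_le_exp.2 (by linarith [hC s hs0])
    have h4 : sinh s < cosh s := sinh_lt_cosh s
    have h5 : s ≤ sinh s := self_le_sinh_iff.2 hs0
    have h6 : (1 - h v.1.1 v.1.2 w.1.2) * s = exp C + (1 - h v.1.1 v.1.2 w.1.2) := by
      rw [hs]
      field_simp
    nlinarith [mul_le_mul_of_nonneg_left h5 hc.le]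
  have hv := v.2
  have hw := w.2
  rw [← e] at hw
  have h2 : v.1.2 - w.1.2 = 0 := by
    by_contra hc
    have := riem.pos v.1.1 _ hc
    simp only [map_sub, ContinuousLinearMap.sub_apply, hv, hw, riem.symm v.1.1 w.1.2 v.1.2] at this
    linarith
  exact Subtype.ext (Prod.ext e (sub_eq_zero.1 h2))

variable {Γ Λ : Type} [Group Γ] [MulAction Γ (E n)] [Group Λ] [MulAction Λ (E n)]

theorem foot_lim (jc : JcP Ψ) {s : ℕ → ℝ} {q : ℕ → UT h} {a : ℝ} {v : UT h}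
    (hs : Tendsto s atTop (𝓝 a)) (hq : Tendsto q atTop (𝓝 v)) :
    Tendsto (fun j => (Ψ (s j) (q j)).1.1) atTop (𝓝 (Ψ a v).1.1) := by
  have hc : Continuous fun a : ℝ × UT h => (Ψ a.1 a.2).1.1 :=
    (continuous_subtype_val.comp jc).fst
  exact (hc.tendsto (a, v)).comp (hs.prodMk_nhds hq)

/-- From every point there is a strongly asymptotic ray. -/
theorem exa (qh : QP h Λ Ψ) (bp : BP h Ψ) (th : ThP h Ψ 1) (w : UT h) (y : E n) :
    ∃ v : UT h, v.1.1 = y ∧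
      Tendsto (fun t => dd h (Ψ t w).1.1 (Ψ t (Ψ (bus h Ψ w y) v)).1.1) atTop (𝓝 0) := by
  have db := qh.rp.db
  obtain ⟨q, T, v, hv, hq, hT, hj⟩ := dirs qh.rp.riem qh.rp.hr w y
  have hβ := (bp.lim w y).comp hT
  have back (t a : ℝ) (u : UT h) : (Ψ t (ng (Ψ a u))).1.1 = (Ψ (a - t) u).1.1 := by
    rw [qh.rp.fl.rev, ← qh.add, neg_add_eq_sub]
    rfl
  have lim (S : ℝ) : Tendsto (fun j => cosh (dd h (Ψ S w).1.1
      (Ψ (dd h y (Ψ (T j) w).1.1 - T j + S) (q j)).1.1)) atTop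
      (𝓝 (cosh (dd h (Ψ S w).1.1 (Ψ (bus h Ψ w y + S) v).1.1))) :=
    (continuous_cosh.tendsto _).comp ((db.cont.tendsto (_, _)).comp
      (tendsto_const_nhds.prodMk_nhds (foot_lim qh.jc (hβ.add_const S) hq)))
  have key (S : ℝ) (hS : 0 ≤ S) : cosh (dd h (Ψ S w).1.1 (Ψ (bus h Ψ w y + S) v).1.1) ≤
      1 + exp (-(2 * S)) * (cosh (dd h (Ψ 0 w).1.1 (Ψ (bus h Ψ w y + 0) v).1.1) - 1) := by
    refine le_of_tendsto_of_tendsto (lim S) ((((lim 0).sub_const 1).const_mul _).const_add 1) ?_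
    filter_upwards [hT.eventually_ge_atTop S] with j hjS
    have := th (ng (Ψ (T j) w)) (ng (Ψ (dd h y (Ψ (T j) w).1.1) (q j))) (hj j).2.symm (T j) S
      hS hjS
    simp only [back, one_mul, mul_one, sub_sub_cancel, sub_self] at this
    rw [show dd h y (Ψ (T j) w).1.1 - (T j - S) = dd h y (Ψ (T j) w).1.1 - T j + S by ring] at this
    simpa only [add_zero] using this
  refine ⟨v, hv, tendsto_order.2 ⟨fun a ha => Eventually.of_forall fun t =>
    ha.trans_le (db.nonneg _ _), fun a ha => ?_⟩⟩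
  have h1 : Tendsto (fun S : ℝ => 1 + exp (-(2 * S)) *
      (cosh (dd h (Ψ 0 w).1.1 (Ψ (bus h Ψ w y + 0) v).1.1) - 1)) atTop (𝓝 (1 + 0 * _)) :=
    ((tendsto_exp_neg_atTop_nhds_zero.comp
      (tendsto_id.const_mul_atTop two_pos)).mul_const _).const_add 1
  rw [zero_mul, add_zero (1 : ℝ)] at h1
  filter_upwards [eventually_ge_atTop 0, h1.eventually_lt_const (one_lt_cosh.2 ha.ne')] with S h0 h2
  have h3 := cosh_lt_cosh.1 ((key S h0).trans_lt h2)
  rw [abs_of_nonneg (db.nonneg _ _), abs_of_pos ha, add_comm, qh.add] at h3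
  exact h3

theorem exa_bus (bp : BP h Ψ) {w v : UT h} {k : ℝ}
    (hv : Tendsto (fun t => dd h (Ψ t w).1.1 (Ψ t (Ψ k v)).1.1) atTop (𝓝 0)) (z : E n) :
    bus h Ψ w z = bus h Ψ v z + k := by
  rw [bp.top _ _ hv, bp.shift]

/-- A ray along which a Busemann function decreases with unit speed is strongly asymptotic. -/
theorem asy (qh : QP h Λ Ψ) (bp : BP h Ψ) (th : ThP h Ψ 1) (lb : LbP h Ψ 1) {w u : UT h} {C : ℝ}
    (hC : ∀ s, 0 ≤ s → bus h Ψ w (Ψ s u).1.1 ≤ C - s) :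
    Tendsto (fun t => dd h (Ψ t w).1.1 (Ψ t (Ψ (bus h Ψ w u.1.1) u)).1.1) atTop (𝓝 0) := by
  obtain ⟨v, hv, hl⟩ := exa qh bp th w u.1.1
  have e : v = u := uniq qh.rp.riem lb hv (C := C - bus h Ψ w u.1.1) fun s hs => by
    have := exa_bus bp hl (Ψ s u).1.1
    linarith [hC s hs]
  rwa [e] at hl

variable {F : UT g ≃ₜ UT h}

/-- Moving the base point. -/
theorem mov1 (qg : QP g Γ Φ) (qh : QP h Λ Ψ) (mn : MinP g Φ) (bp : BP h Ψ) (th : ThP h Ψ 1)
    (lb : LbP h Ψ 1) (uq : UQ g h Ψ F) (fl : ∀ t p, F (Φ t p) = Ψ t (F p)) (p : UT g) (x : E n) :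
    ∃ (p' : UT g) (k : ℝ), p'.1.1 = x ∧ ∀ z, bus h Ψ (F p') z = bus h Ψ (F p) z + k := by
  have db := qg.rp.db
  obtain ⟨D, hD⟩ := uq.bdd
  obtain ⟨q, T, v, hv, hq, hT, hj⟩ := dirs qg.rp.riem qg.rp.hr p x
  have hC (s : ℝ) (hs : 0 ≤ s) : bus h Ψ (F p) (Ψ s (F v)).1.1 ≤ D + dd g x p.1.1 - s := by
    have l1 := foot_lim qh.jc (tendsto_const_nhds (x := s)) ((F.continuous.tendsto v).comp hq)
    have l2 := (qh.rp.db.cont.tendsto (_, _)).comp
      ((tendsto_const_nhds (x := (Ψ s (F v)).1.1)).prodMk_nhds l1)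
    simp only [qh.rp.db.refl] at l2
    have l3 := l2.const_add (D + dd g x p.1.1 - s)
    rw [add_zero] at l3
    refine ge_of_tendsto l3 ?_
    filter_upwards [hT.eventually_ge_atTop (s + dd g x p.1.1), hT.eventually_ge_atTop 0]
      with j h1 h0
    have h2 := hD _ _ (hj j).2
    rw [fl, fl] at h2
    have h3 := mn p 0 (T j)
    rw [qg.rp.flow.zero, zero_sub, abs_neg, abs_of_nonneg h0] at h3
    have h4 := db.tri p.1.1 x (Φ (T j) p).1.1
    have h5 := db.tri x p.1.1 (Φ (T j) p).1.1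
    rw [db.symm p.1.1 x] at h4
    have h6 := qh.rp.fl.lip (F (q j)) s (dd g x (Φ (T j) p).1.1)
    rw [abs_of_nonpos (by linarith)] at h6
    have h7 := bp.lip (F p) (Ψ s (F v)).1.1 (Ψ s (F (q j))).1.1
    have h8 := bp.lip (F p) (Ψ s (F (q j))).1.1 (Ψ (dd g x (Φ (T j) p).1.1) (F (q j))).1.1
    have h9 := bp.lip (F p) (Ψ (dd g x (Φ (T j) p).1.1) (F (q j))).1.1 (Ψ (T j) (F p)).1.1
    rw [bp.self] at h9
    simp only [Function.comp_apply]
    linarith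
  refine ⟨v, -bus h Ψ (F p) (F v).1.1, hv, fun z => ?_⟩
  have := exa_bus bp (asy qh bp th lb hC) z
  linarith

/-- The constant is bounded by the distance of the base points. -/
theorem mov2 (qg : QP g Γ Φ) (qh : QP h Λ Ψ) (mn : MinP g Φ) (bp : BP h Ψ) (th : ThP h Ψ 1)
    (lb : LbP h Ψ 1) (tp : TP g h Φ Ψ F) {p p' : UT g} {k : ℝ}
    (hk : ∀ z, bus h Ψ (F p') z = bus h Ψ (F p) z + k) : |k| ≤ dd g p.1.1 p'.1.1 := by
  have db := qg.rp.db
  have h1 := asy qh bp th lb (w := F p) (u := F p') (C := -k) fun s _ => by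
    have := hk (Ψ s (F p')).1.1
    rw [bp.self] at this
    linarith
  have h2 : bus h Ψ (F p) (F p').1.1 = -k := by
    have h3 := hk (Ψ 0 (F p')).1.1
    rw [bp.self, qh.rp.flow.zero] at h3
    linarith
  rw [h2, ← tp.flow] at h1
  have h3 := (tp.top _ _ h1).const_add (dd g p.1.1 p'.1.1)
  rw [add_zero] at h3
  refine ge_of_tendsto h3 ?_
  filter_upwards [eventually_ge_atTop 0, eventually_ge_atTop k] with t h0 ht
  rw [← qg.add]
  have a1 := mn p 0 t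
  have a2 := mn p' 0 (t + -k)
  rw [qg.rp.flow.zero, zero_sub, abs_neg, abs_of_nonneg (by linarith)] at a1 a2
  have b1 := db.tri p.1.1 p'.1.1 (Φ t p).1.1
  have b2 := db.tri p'.1.1 (Φ (t + -k) p').1.1 (Φ t p).1.1
  have b3 := db.tri p'.1.1 p.1.1 (Φ (t + -k) p').1.1
  have b4 := db.tri p.1.1 (Φ t p).1.1 (Φ (t + -k) p').1.1
  rw [db.symm (Φ (t + -k) p').1.1] at b2
  rw [db.symm p'.1.1 p.1.1] at b3
  exact abs_le.2 ⟨by linarith, by linarith⟩

end Pool.Agent.MP_3ee8cb_gt.DZM
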